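import Mathlib

/-!
# Small-time local controllability in dimension three without a bound on the number of switchings:
pairs of vector fields

For every `k ≥ 2` (in particular for pairs, `k = 2`) we give `k` pairwise different polynomial
vector fields on `ℝ³` which are small time locally controllable at the origin, but for which more
than a constant times `t ^ (-1/3)` switchings are needed to cover a neighbourhood of the origin in
time less than `t`.  The fields are `(b_i, x, x⁶ - y⁴)`; for `k = 2` this is the system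
`x' = ± 1`, `y' = x`, `z' = x⁶ - y⁴`.
-/

namespace Pool.Agent.Results.MP_6714ac_an.PairsNoSwitchingBound

open Set

/-- `attainable f t N` is the set of points of `ℝ³` reachable from the origin in total time less
than `t` with at most `N` switchings between the fields `f 0, …, f (k-1)`: there are `m ≤ N + 1`
consecutive time intervals `[τ j, τ (j+1)]`, starting at `τ 0 = 0`, of positive length, with
`τ m < t`, indices `i j`, and a continuous path `γ` which starts at the origin, is an integral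
curve of `f (i j)` on `[τ j, τ (j+1)]`, and ends at the given point at time `τ m`. -/
def attainable {k : ℕ} (f : Fin k → (Fin 3 → ℝ) → (Fin 3 → ℝ)) (t : ℝ) (N : ℕ) :
    Set (Fin 3 → ℝ) :=
  {x | ∃ (m : ℕ) (τ : ℕ → ℝ) (i : ℕ → Fin k) (γ : ℝ → (Fin 3 → ℝ)),
      m ≤ N + 1 ∧ τ 0 = 0 ∧ (∀ j < m, τ j < τ (j + 1)) ∧ τ m < t ∧
      ContinuousOn γ (Icc 0 (τ m)) ∧
      (∀ j < m, ∀ s ∈ Icc (τ j) (τ (j + 1)),
        HasDerivWithinAt γ (f (i j) (γ s)) (Icc (τ j) (τ (j + 1))) s) ∧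
      γ 0 = 0 ∧ γ (τ m) = x}

/-- Small time local controllability at the origin: for every `t > 0` the origin is an interior
point of the set of all points attainable in time less than `t` (any number of switchings). -/
def STLC {k : ℕ} (f : Fin k → (Fin 3 → ℝ) → (Fin 3 → ℝ)) : Prop :=
  ∀ t > 0, (0 : Fin 3 → ℝ) ∈ interior (⋃ N : ℕ, attainable f t N)

/-- the speeds `1, -1, -2, -3, …` -/
noncomputable def cb {k : ℕ} (i : Fin k) : ℝ := if i.val = 0 then 1 else -(i.val : ℝ)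

/-- the fields `(b_i, x, x⁶ - y⁴)` -/
noncomputable def fld (k : ℕ) (i : Fin k) (v : Fin 3 → ℝ) : Fin 3 → ℝ :=
  ![cb i, v 0, v 0 ^ 6 - v 1 ^ 4]

/-- the integral of `(x + b τ)⁶` over `[0, s]` -/
noncomputable def q6 (x b s : ℝ) : ℝ :=
  x ^ 6 * s + 3 * x ^ 5 * b * s ^ 2 + 5 * x ^ 4 * b ^ 2 * s ^ 3 + 5 * x ^ 3 * b ^ 3 * s ^ 4 +
    3 * x ^ 2 * b ^ 4 * s ^ 5 + x * b ^ 5 * s ^ 6 + b ^ 6 / 7 * s ^ 7

/-- the integral of `(y + x τ + b τ² / 2)⁴` over `[0, s]` -/
noncomputable def q4 (y x b s : ℝ) : ℝ :=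
  y ^ 4 * s + 2 * y ^ 3 * x * s ^ 2 + (6 * y ^ 2 * x ^ 2 + 2 * y ^ 3 * b) / 3 * s ^ 3 +
    (4 * y * x ^ 3 + 6 * y ^ 2 * x * b) / 4 * s ^ 4 +
    (x ^ 4 + 6 * y * x ^ 2 * b + 3 * y ^ 2 * b ^ 2 / 2) / 5 * s ^ 5 +
    (2 * x ^ 3 * b + 3 * y * x * b ^ 2) / 6 * s ^ 6 +
    (3 * x ^ 2 * b ^ 2 / 2 + y * b ^ 3 / 2) / 7 * s ^ 7 +
    x * b ^ 3 / 16 * s ^ 8 + b ^ 4 / 144 * s ^ 9

lemma hasDerivAt_q6 (x b s : ℝ) : HasDerivAt (fun s => q6 x b s) ((x + b * s) ^ 6) s := by
  have i1 := hasDerivAt_id s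
  have h := ((((((i1.const_mul (x ^ 6)).add ((i1.pow 2).const_mul (3 * x ^ 5 * b))).add
    ((i1.pow 3).const_mul (5 * x ^ 4 * b ^ 2))).add
    ((i1.pow 4).const_mul (5 * x ^ 3 * b ^ 3))).add
    ((i1.pow 5).const_mul (3 * x ^ 2 * b ^ 4))).add
    ((i1.pow 6).const_mul (x * b ^ 5))).add ((i1.pow 7).const_mul (b ^ 6 / 7))
  refine HasDerivAt.congr_deriv (f' := _) (h.congr_of_eventuallyEq ?_) ?_
  · exact Filter.Eventually.of_forall fun s => by simp [q6]
  · simp
    ring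

lemma hasDerivAt_q4 (y x b s : ℝ) :
    HasDerivAt (fun s => q4 y x b s) ((y + x * s + b * s ^ 2 / 2) ^ 4) s := by
  have i1 := hasDerivAt_id s
  have h := ((((((((i1.const_mul (y ^ 4)).add ((i1.pow 2).const_mul (2 * y ^ 3 * x))).add
    ((i1.pow 3).const_mul ((6 * y ^ 2 * x ^ 2 + 2 * y ^ 3 * b) / 3))).add
    ((i1.pow 4).const_mul ((4 * y * x ^ 3 + 6 * y ^ 2 * x * b) / 4))).add
    ((i1.pow 5).const_mul ((x ^ 4 + 6 * y * x ^ 2 * b + 3 * y ^ 2 * b ^ 2 / 2) / 5))).add
    ((i1.pow 6).const_mul ((2 * x ^ 3 * b + 3 * y * x * b ^ 2) / 6))).add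
    ((i1.pow 7).const_mul ((3 * x ^ 2 * b ^ 2 / 2 + y * b ^ 3 / 2) / 7))).add
    ((i1.pow 8).const_mul (x * b ^ 3 / 16))).add ((i1.pow 9).const_mul (b ^ 4 / 144))
  refine HasDerivAt.congr_deriv (f' := _) (h.congr_of_eventuallyEq ?_) ?_
  · exact Filter.Eventually.of_forall fun s => by simp [q4]
  · simp
    ring

/-- the flow of `(b, x, x⁶ - y⁴)` -/
noncomputable def flow (b s : ℝ) (v : Fin 3 → ℝ) : Fin 3 → ℝ :=
  ![v 0 + b * s, v 1 + v 0 * s + b * s ^ 2 / 2, v 2 + q6 (v 0) b s - q4 (v 1) (v 0) b s]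

lemma flow_zero (b : ℝ) (v : Fin 3 → ℝ) : flow b 0 v = v := by
  ext j; fin_cases j <;> simp [flow, q6, q4]

lemma hasDerivAt_flow (b p s : ℝ) (v : Fin 3 → ℝ) :
    HasDerivAt (fun s => flow b (s - p) v)
      ![b, (flow b (s - p) v) 0, (flow b (s - p) v) 0 ^ 6 - (flow b (s - p) v) 1 ^ 4] s := by
  rw [hasDerivAt_pi]
  have h1 : HasDerivAt (fun s : ℝ => s - p) 1 s := by
    simpa using (hasDerivAt_id s).sub_const p
  intro j
  fin_cases j
  · simpa [flow] using (h1.const_mul b).const_add (v 0)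
  · have h2 := ((h1.const_mul (v 0)).const_add (v 1)).add (((h1.pow 2).const_mul b).div_const 2)
    simp only [flow]
    refine HasDerivAt.congr_deriv (f' := _) (h2.congr_of_eventuallyEq ?_) ?_
    · exact Filter.Eventually.of_forall fun s => by simp
    · simp
      ring
  · have h6 := (hasDerivAt_q6 (v 0) b (s - p)).comp_sub_const s p
    have h4 := (hasDerivAt_q4 (v 1) (v 0) b (s - p)).comp_sub_const s p
    have h := (h6.const_add (v 2)).sub h4
    simp only [flow]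
    refine HasDerivAt.congr_deriv (f' := _) (h.congr_of_eventuallyEq ?_) ?_
    · exact Filter.Eventually.of_forall fun s => by simp
    · simp

/-- uniqueness of integral curves of `(b, x, x⁶ - y⁴)` -/
lemma eq_flow {b p q : ℝ} (γ : ℝ → (Fin 3 → ℝ))
    (h : ∀ s ∈ Icc p q, HasDerivWithinAt γ ![b, (γ s) 0, (γ s) 0 ^ 6 - (γ s) 1 ^ 4] (Icc p q) s)
    (hpq : p < q) : ∀ s ∈ Icc p q, γ s = flow b (s - p) (γ p) := by
  have hc : ∀ s ∈ Icc p q, ∀ j, HasDerivWithinAt (fun s => γ s j)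
      ((![b, (γ s) 0, (γ s) 0 ^ 6 - (γ s) 1 ^ 4] : Fin 3 → ℝ) j) (Icc p q) s := by
    intro s hs
    exact hasDerivWithinAt_pi.1 (h s hs)
  have hfl : ∀ s ∈ Icc p q, ∀ j, HasDerivWithinAt (fun s => flow b (s - p) (γ p) j)
      ((![b, (flow b (s - p) (γ p)) 0,
        (flow b (s - p) (γ p)) 0 ^ 6 - (flow b (s - p) (γ p)) 1 ^ 4] : Fin 3 → ℝ) j)
      (Icc p q) s := by
    intro s _ j
    exact ((hasDerivAt_pi.1 (hasDerivAt_flow b p s (γ p))) j).hasDerivWithinAt
  have key : ∀ j, (∀ s ∈ Icc p q,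
      (![b, (γ s) 0, (γ s) 0 ^ 6 - (γ s) 1 ^ 4] : Fin 3 → ℝ) j =
      (![b, (flow b (s - p) (γ p)) 0,
        (flow b (s - p) (γ p)) 0 ^ 6 - (flow b (s - p) (γ p)) 1 ^ 4] : Fin 3 → ℝ) j) →
      ∀ s ∈ Icc p q, γ s j = flow b (s - p) (γ p) j := by
    intro j hj s hs
    have hd : ∀ s ∈ Icc p q, HasDerivWithinAt
        (fun s => γ s j - flow b (s - p) (γ p) j) 0 (Icc p q) s := by
      intro s hs
      have := (hc s hs j).sub (hfl s hs j)
      rw [hj s hs, sub_self] at this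
      exact this
    have h0 := constant_of_derivWithin_zero (f := fun s => γ s j - flow b (s - p) (γ p) j)
      (a := p) (b := q) (fun s hs => (hd s hs).differentiableWithinAt)
      (fun s hs => (hd s ⟨hs.1, hs.2.le⟩).derivWithin
        ((uniqueDiffOn_Icc hpq) s ⟨hs.1, hs.2.le⟩)) s hs
    simp only [sub_self, flow_zero] at h0
    linarith
  have k0 := key 0 (by intro s _; simp)
  have k1 := key 1 (by intro s hs; simp [k0 s hs])
  have k2 := key 2 (by intro s hs; simp [k0 s hs, k1 s hs])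
  intro s hs
  ext j
  fin_cases j
  · exact k0 s hs
  · exact k1 s hs
  · exact k2 s hs

lemma abs_cb {k : ℕ} (i : Fin k) : |cb i| ≤ k := by
  unfold cb
  have h1 : i.val < k := i.2
  split_ifs with h
  · rw [abs_one]
    exact_mod_cast (by omega : 1 ≤ k)
  · rw [abs_neg, Nat.abs_cast]
    exact_mod_cast h1.le

lemma one_le_cb_sq {k : ℕ} (i : Fin k) : 1 ≤ cb i ^ 2 := by
  unfold cb
  split_ifs with h
  · simp
  · have : (1 : ℝ) ≤ (i.val : ℝ) := by exact_mod_cast (by omega : 1 ≤ i.val)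
    nlinarith

lemma q6_ge {x b s : ℝ} (hb : 1 ≤ b ^ 2) (hs : 0 ≤ s) : s ^ 7 / 448 ≤ q6 x b s := by
  have e : q6 x b s = s * ((x + b * s / 2) ^ 6 + 5 / 4 * (x + b * s / 2) ^ 4 * (b * s) ^ 2 +
      3 / 16 * (x + b * s / 2) ^ 2 * (b * s) ^ 4) + (b ^ 2) ^ 3 * (s ^ 7 / 448) := by
    unfold q6
    ring
  rw [e]
  have h1 : 0 ≤ s * ((x + b * s / 2) ^ 6 + 5 / 4 * (x + b * s / 2) ^ 4 * (b * s) ^ 2 +
      3 / 16 * (x + b * s / 2) ^ 2 * (b * s) ^ 4) := by positivity
  have h2 : (1 : ℝ) ≤ (b ^ 2) ^ 3 := one_le_pow₀ hb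
  have h3 : 0 ≤ s ^ 7 / 448 := by positivity
  nlinarith

lemma q4_le {y x b s Y : ℝ} (hs : 0 ≤ s)
    (h : ∀ r ∈ Icc (0 : ℝ) s, |y + x * r + b * r ^ 2 / 2| ≤ Y) : q4 y x b s ≤ Y ^ 4 * s := by
  have hint : ∫ r in (0:ℝ)..s, (y + x * r + b * r ^ 2 / 2) ^ 4 = q4 y x b s := by
    rw [intervalIntegral.integral_eq_sub_of_hasDerivAt (fun r _ => hasDerivAt_q4 y x b r)
      (by apply Continuous.intervalIntegrable; fun_prop)]
    simp [q4]
  rw [← hint]
  calc ∫ r in (0:ℝ)..s, (y + x * r + b * r ^ 2 / 2) ^ 4 ≤ ∫ r in (0:ℝ)..s, Y ^ 4 := by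
        apply intervalIntegral.integral_mono_on hs
        · apply Continuous.intervalIntegrable; fun_prop
        · apply Continuous.intervalIntegrable; fun_prop
        · intro r hr
          calc (y + x * r + b * r ^ 2 / 2) ^ 4 = |y + x * r + b * r ^ 2 / 2| ^ 4 := by
                rw [← abs_pow, abs_of_nonneg (by positivity)]
            _ ≤ Y ^ 4 := by
                have := h r hr
                gcongr
    _ = Y ^ 4 * s := by simp; ring

/-- Along a path with `m` pieces the third coordinate is bounded below. -/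
lemma lower_bound {k : ℕ} {m : ℕ} {τ : ℕ → ℝ} {i : ℕ → Fin k} {γ : ℝ → (Fin 3 → ℝ)}
    (h0 : τ 0 = 0) (hτ : ∀ j < m, τ j < τ (j + 1))
    (hγ : ∀ j < m, ∀ s ∈ Icc (τ j) (τ (j + 1)),
        HasDerivWithinAt γ (fld k (i j) (γ s)) (Icc (τ j) (τ (j + 1))) s)
    (hγ0 : γ 0 = 0) (T : ℝ) (hT : ∀ j ≤ m, τ j ≤ T) :
    ∀ j ≤ m, 0 ≤ τ j ∧ |γ (τ j) 0| ≤ k * τ j ∧ |γ (τ j) 1| ≤ k * τ j ^ 2 ∧
      ∑ l ∈ Finset.range j, (τ (l + 1) - τ l) ^ 7 / 448 - (k * T ^ 2) ^ 4 * τ j ≤ γ (τ j) 2 := by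
  intro j
  induction j with
  | zero => intro _; simp [h0, hγ0]
  | succ j ih =>
    intro hj
    obtain ⟨ih0, ih1, ih2, ih3⟩ := ih (by omega)
    have hlt := hτ j (by omega)
    have hk0 : (0 : ℝ) ≤ k := Nat.cast_nonneg k
    have hfl := eq_flow (b := cb (i j)) γ (p := τ j) (q := τ (j + 1))
      (hγ j (by omega)) hlt (τ (j + 1)) ⟨hlt.le, le_rfl⟩
    have hcb := abs_cb (i j)
    have hy : ∀ r ∈ Icc (0 : ℝ) (τ (j + 1) - τ j),
        |γ (τ j) 1 + γ (τ j) 0 * r + cb (i j) * r ^ 2 / 2| ≤ k * (τ j + r) ^ 2 := by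
      intro r hr
      calc |γ (τ j) 1 + γ (τ j) 0 * r + cb (i j) * r ^ 2 / 2|
          ≤ |γ (τ j) 1| + |γ (τ j) 0 * r| + |cb (i j) * r ^ 2 / 2| := abs_add_three _ _ _
        _ = |γ (τ j) 1| + |γ (τ j) 0| * r + |cb (i j)| * (r ^ 2 / 2) := by
            rw [abs_mul, abs_of_nonneg hr.1, mul_div_assoc, abs_mul,
              abs_of_nonneg (by positivity : (0 : ℝ) ≤ r ^ 2 / 2)]
        _ ≤ k * τ j ^ 2 + (k * τ j) * r + k * (r ^ 2 / 2) := by
            have hr0 := hr.1
            gcongr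
        _ ≤ k * (τ j + r) ^ 2 := by
            have h1 : 0 ≤ k * (τ j * r) := mul_nonneg hk0 (mul_nonneg ih0 hr.1)
            have h2 : 0 ≤ k * r ^ 2 := by positivity
            nlinarith
    have hpos : 0 < τ (j + 1) - τ j := sub_pos.2 hlt
    rw [hfl]
    refine ⟨by linarith, ?_, ?_, ?_⟩
    · simp only [flow, Matrix.cons_val_zero]
      calc |γ (τ j) 0 + cb (i j) * (τ (j + 1) - τ j)|
          ≤ |γ (τ j) 0| + |cb (i j)| * |τ (j + 1) - τ j| := by
            rw [← abs_mul]; exact abs_add_le _ _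
        _ ≤ k * τ j + k * (τ (j + 1) - τ j) := by
            rw [abs_of_pos hpos]
            gcongr
        _ = k * τ (j + 1) := by ring
    · have h1 := hy (τ (j + 1) - τ j) ⟨hpos.le, le_rfl⟩
      have e : τ j + (τ (j + 1) - τ j) = τ (j + 1) := by ring
      rw [e] at h1
      simpa [flow] using h1
    · rw [Finset.sum_range_succ]
      have h1 := q6_ge (x := γ (τ j) 0) (one_le_cb_sq (i j)) hpos.le
      have h2 := q4_le (y := γ (τ j) 1) (x := γ (τ j) 0) (b := cb (i j)) (Y := k * T ^ 2) hpos.le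
        (fun r hr => (hy r hr).trans (by
          have h3 : τ j + r ≤ T := by have := hT (j + 1) hj; linarith [hr.2]
          have h4 : 0 ≤ τ j + r := by linarith [hr.1]
          gcongr))
      simp only [flow, Matrix.cons_val]
      nlinarith

/-- the point `v` can be reached at the exact time `T` -/
def Reach (k : ℕ) (T : ℝ) (v : Fin 3 → ℝ) : Prop :=
  ∃ (m : ℕ) (τ : ℕ → ℝ) (i : ℕ → Fin k) (γ : ℝ → (Fin 3 → ℝ)),
      τ 0 = 0 ∧ (∀ j < m, τ j < τ (j + 1)) ∧ τ m = T ∧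
      ContinuousOn γ (Icc 0 T) ∧
      (∀ j < m, ∀ s ∈ Icc (τ j) (τ (j + 1)),
        HasDerivWithinAt γ (fld k (i j) (γ s)) (Icc (τ j) (τ (j + 1))) s) ∧
      γ 0 = 0 ∧ γ T = v

lemma Reach.mem {k : ℕ} {T t : ℝ} {v : Fin 3 → ℝ} (h : Reach k T v) (ht : T < t) :
    v ∈ ⋃ N : ℕ, attainable (fld k) t N := by
  obtain ⟨m, τ, i, γ, h0, h1, h2, h3, h4, h5, h6⟩ := h
  subst h2
  exact mem_iUnion.2 ⟨m, m, τ, i, γ, by omega, h0, h1, ht, h3, h4, h5, h6⟩

lemma mono_times {m : ℕ} {τ : ℕ → ℝ} (hτ : ∀ j < m, τ j < τ (j + 1)) :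
    ∀ l ≤ m, ∀ j ≤ l, τ j ≤ τ l := by
  intro l
  induction l with
  | zero => intro _ j hj; have : j = 0 := by omega
            subst this; exact le_rfl
  | succ l ih =>
    intro hl j hj
    rcases Nat.lt_or_ge l j with h | h
    · have : j = l + 1 := by omega
      subst this; exact le_rfl
    · exact (ih (by omega) j h).trans (hτ l (by omega)).le

lemma reach_zero {k : ℕ} (hk : 2 ≤ k) : Reach k 0 0 := by
  refine ⟨0, fun _ => 0, fun _ => ⟨0, by omega⟩, fun _ => 0, rfl, ?_, rfl, ?_, ?_, rfl, rfl⟩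
  · intro j hj; omega
  · exact continuousOn_const
  · intro j hj; omega

lemma Reach.step {k : ℕ} {T : ℝ} {v : Fin 3 → ℝ} (h : Reach k T v) (i0 : Fin k) {s : ℝ}
    (hs : 0 < s) : Reach k (T + s) (flow (cb i0) s v) := by
  obtain ⟨m, τ, i, γ, h0, h1, h2, h3, h4, h5, h6⟩ := h
  have hmono := mono_times h1
  have hT : 0 ≤ T := by rw [← h2, ← h0]; exact hmono m le_rfl 0 (Nat.zero_le _)
  set γ' : ℝ → (Fin 3 → ℝ) := fun r => if r ≤ T then γ r else flow (cb i0) (r - T) v
    with hγ'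
  have e1 : ∀ r ≤ T, γ' r = γ r := fun r hr => by simp [hγ', hr]
  have e2 : ∀ r, T ≤ r → γ' r = flow (cb i0) (r - T) v := by
    intro r hr
    rcases hr.eq_or_lt with h | h
    · subst h; simp [hγ', flow_zero, h6]
    · simp [hγ', not_le.2 h]
  refine ⟨m + 1, fun j => if j ≤ m then τ j else T + s, fun j => if j < m then i j else i0, γ',
    by simp [h0], ?_, by simp, ?_, ?_, ?_, ?_⟩
  · intro j hj
    rcases Nat.lt_or_ge j m with h | h
    · simp only [h.le, if_true, Nat.succ_le_of_lt h]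
      exact h1 j h
    · have : j = m := by omega
      subst this
      simp only [le_refl, if_true, h2]
      simp [hs]
  · have hu : Icc 0 (T + s) = Icc 0 T ∪ Icc T (T + s) := by
      rw [Icc_union_Icc_eq_Icc hT (by linarith)]
    rw [hu]
    apply ContinuousOn.union_of_isClosed _ _ isClosed_Icc isClosed_Icc
    · exact h3.congr fun r hr => e1 r hr.2
    · have : ContinuousOn (fun r => flow (cb i0) (r - T) v) (Icc T (T + s)) :=
        fun r _ => (hasDerivAt_flow _ _ _ _).continuousAt.continuousWithinAt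
      exact this.congr fun r hr => e2 r hr.1
  · intro j hj r hr
    rcases Nat.lt_or_ge j m with h | h
    · simp only [h.le, if_true, Nat.succ_le_of_lt h, h] at hr ⊢
      have hle : τ (j + 1) ≤ T := by rw [← h2]; exact hmono m le_rfl (j + 1) h
      have := h4 j h r hr
      rw [e1 r (hr.2.trans hle)]
      exact this.congr (fun r' hr' => e1 r' (hr'.2.trans hle)) (e1 r (hr.2.trans hle))
    · have : j = m := by omega
      subst this
      have hn : ¬ (j + 1 ≤ j) := by omega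
      simp only [le_refl, if_true, h2, hn, if_false, lt_irrefl] at hr ⊢
      rw [e2 r hr.1]
      have := (hasDerivAt_flow (cb i0) T r v).hasDerivWithinAt (s := Icc T (T + s))
      exact this.congr (fun r' hr' => e2 r' hr'.1) (e2 r hr.1)
  · rw [e1 0 hT, h5]
  · rw [e2 (T + s) (by linarith)]
    congr 1
    ring

section two
variable {k : ℕ} (hk : 2 ≤ k)
include hk

lemma Reach.step0 {T : ℝ} {v : Fin 3 → ℝ} (h : Reach k T v) {s : ℝ} (hs : 0 < s) :
    Reach k (T + s) (flow 1 s v) := by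
  have := h.step ⟨0, by omega⟩ hs
  simpa [cb] using this

lemma Reach.step1 {T : ℝ} {v : Fin 3 → ℝ} (h : Reach k T v) {s : ℝ} (hs : 0 < s) :
    Reach k (T + s) (flow (-1) s v) := by
  have := h.step ⟨1, by omega⟩ hs
  simpa [cb] using this

/-- the gain of one tooth of unit size at height `j` -/
noncomputable def bet (j : ℝ) : ℝ :=
  2 * j ^ 4 + 4 * j ^ 3 + 23 / 5 * j ^ 2 + 13 / 5 * j + 1451 / 2520

/-- the gain of `M` teeth -/
noncomputable def Bet (M : ℕ) : ℝ := ∑ j ∈ Finset.range M, bet j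

omit hk in
lemma tooth_up (j h z : ℝ) : flow (-1) h (flow 1 h ![0, j * h ^ 2, z]) =
    ![0, (j + 1) * h ^ 2, z + 2 / 7 * h ^ 7 - bet j * h ^ 9] := by
  ext l
  fin_cases l
  · simp [flow]
  · simp [flow]; ring
  · simp [flow, q6, q4, bet]; ring

omit hk in
lemma tooth_down (j h z : ℝ) : flow 1 h (flow (-1) h ![0, (j + 1) * h ^ 2, z]) =
    ![0, j * h ^ 2, z + 2 / 7 * h ^ 7 - bet j * h ^ 9] := by
  ext l
  fin_cases l
  · simp [flow]
  · simp [flow]; ring
  · simp [flow, q6, q4, bet]; ring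

/-- `M` teeth up -/
lemma teeth_up {h : ℝ} (hh : 0 < h) (M : ℕ) :
    Reach k (2 * M * h) ![0, M * h ^ 2, M * (2 / 7 * h ^ 7) - Bet M * h ^ 9] := by
  induction M with
  | zero =>
    have h0 : (![0, ((0:ℕ):ℝ) * h ^ 2, ((0:ℕ):ℝ) * (2 / 7 * h ^ 7) - Bet 0 * h ^ 9] :
        Fin 3 → ℝ) = 0 := by
      ext l; fin_cases l <;> simp [Bet]
    rw [h0]
    simpa using reach_zero hk
  | succ M ih =>
    have hr := Reach.step1 hk (Reach.step0 hk ih hh) hh
    rw [tooth_up] at hr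
    convert hr using 1
    · push_cast; ring
    · have e : Bet (M + 1) = Bet M + bet M := by simp [Bet, Finset.sum_range_succ]
      rw [e]
      push_cast
      congr 1
      congr 1
      congr 1
      ring

/-- `j` teeth down -/
lemma teeth_down {h : ℝ} (hh : 0 < h) (M : ℕ) {T z : ℝ}
    (h0 : Reach k T ![0, M * h ^ 2, z]) :
    Reach k (T + 2 * M * h) ![0, 0, z + M * (2 / 7 * h ^ 7) - Bet M * h ^ 9] := by
  induction M generalizing T z with
  | zero => simpa [Bet] using h0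
  | succ M ih =>
    have e0 : (((M + 1 : ℕ) : ℝ)) = (M : ℝ) + 1 := by push_cast; ring
    rw [e0] at h0
    have hr := Reach.step0 hk (Reach.step1 hk h0 hh) hh
    rw [tooth_down] at hr
    have := ih hr
    convert this using 1
    · push_cast; ring
    · have e : Bet (M + 1) = Bet M + bet M := by simp [Bet, Finset.sum_range_succ]
      rw [e]
      push_cast
      congr 1
      congr 1
      congr 1
      ring

/-- the loop of `2 M` teeth of size `h` -/
lemma loop {h : ℝ} (hh : 0 < h) (M : ℕ) :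
    Reach k (4 * M * h) ![0, 0, 4 / 7 * M * h ^ 7 - 2 * Bet M * h ^ 9] := by
  have := teeth_down hk hh M (teeth_up hk hh M)
  convert this using 1
  · ring
  · congr 1
    congr 1
    congr 1
    ring

end two

lemma Bet_ge (M : ℕ) : 2 / 5 * (M : ℝ) ^ 5 ≤ Bet M := by
  induction M with
  | zero => simp [Bet]
  | succ M ih =>
    have e : Bet (M + 1) = Bet M + bet M := by simp [Bet, Finset.sum_range_succ]
    rw [e]
    have hM : (0 : ℝ) ≤ M := Nat.cast_nonneg M
    unfold bet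
    push_cast
    nlinarith [sq_nonneg (M : ℝ)]

/-- third coordinate of the final correction -/
noncomputable def zeta (p : ℝ × ℝ × ℝ) : ℝ :=
  (flow 1 (p.2.2 + p.2.1) (flow (-1) (p.1 + p.2.1) (flow 1 p.1 0))) 2

lemma continuous_zeta : Continuous zeta := by
  unfold zeta flow q6 q4
  simp
  fun_prop

lemma zeta_zero : zeta (0, 0, 0) = 0 := by simp [zeta, flow, q6, q4]

lemma flow3 (w a r x y : ℝ) (ha : a ^ 2 = r ^ 2 + y - x ^ 2 / 2) :
    flow 1 (x + r) (flow (-1) (a + r) (flow 1 a ![0, 0, w])) =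
      ![x, y, w + zeta (a, r, x)] := by
  ext l
  fin_cases l
  · simp [flow]
  · have hy : y = a ^ 2 - r ^ 2 + x ^ 2 / 2 := by linarith
    rw [hy]
    simp [flow]; ring
  · simp [flow, zeta]; ring

theorem stlc {k : ℕ} (hk : 2 ≤ k) : STLC (fld k) := by
  intro t ht
  -- the number of teeth
  set X : ℝ := t / 8 with hX
  have hX0 : 0 < X := by positivity
  obtain ⟨M, hM⟩ := exists_nat_gt (1 / X)
  have hM0 : (0 : ℝ) < M := lt_trans (by positivity) hM
  have hXM : 1 < M * X := by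
    rwa [div_lt_iff₀ hX0] at hM
  set h0 : ℝ := X / M with hh0
  have hpos : 0 < h0 := by positivity
  have hMh : M * h0 = X := by rw [hh0]; field_simp
  have hB := Bet_ge M
  have hB0 : 0 < Bet M := lt_of_lt_of_le (by positivity) hB
  set C : ℝ → ℝ := fun h => 4 / 7 * M * h ^ 7 - 2 * Bet M * h ^ 9 with hC
  have hCcont : Continuous C := by rw [hC]; fun_prop
  -- the loop with teeth of size `h0` decreases the third coordinate
  have hneg : C h0 < 0 := by
    have e1 : C h0 = h0 ^ 7 * (4 / 7 * M - 2 * Bet M * h0 ^ 2) := by rw [hC]; ring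
    rw [e1]
    apply mul_neg_of_pos_of_neg (by positivity)
    have h1 : 2 / 5 * (M : ℝ) ^ 5 * h0 ^ 2 ≤ Bet M * h0 ^ 2 := by gcongr
    have h2 : (M : ℝ) ^ 5 * h0 ^ 2 = M * (M * X) ^ 2 := by rw [← hMh]; ring
    have h3 : (1 : ℝ) < (M * X) ^ 2 := by nlinarith
    nlinarith
  -- small teeth increase it
  obtain ⟨h1, hh1, hh1', hpos1⟩ : ∃ h1 : ℝ, 0 < h1 ∧ h1 ≤ h0 ∧ 0 < C h1 := by
    have hden : (0 : ℝ) < 4 * Bet M + 1 := by linarith
    refine ⟨min h0 (min 1 (M / (4 * Bet M + 1))), by positivity, min_le_left _ _, ?_⟩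
    set h1 : ℝ := min h0 (min 1 (M / (4 * Bet M + 1))) with hh1
    have g0 : 0 < h1 := by positivity
    have g1 : h1 ≤ 1 := (min_le_right _ _).trans (min_le_left _ _)
    have g2 : h1 ≤ M / (4 * Bet M + 1) := (min_le_right _ _).trans (min_le_right _ _)
    have e1 : C h1 = h1 ^ 7 * (4 / 7 * M - 2 * Bet M * h1 ^ 2) := by rw [hC]; ring
    rw [e1]
    apply mul_pos (by positivity)
    have g3 : h1 * (4 * Bet M + 1) ≤ M := by rwa [le_div_iff₀ hden] at g2
    have g4 : h1 ^ 2 ≤ h1 := by nlinarith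
    have g5 : Bet M * h1 ^ 2 ≤ Bet M * h1 := by gcongr
    nlinarith
  set μ : ℝ := min (C h1) (-C h0) with hμ
  have hμ0 : 0 < μ := lt_min hpos1 (by linarith)
  have hμ1 : μ ≤ C h1 := min_le_left _ _
  have hμ2 : μ ≤ -C h0 := min_le_right _ _
  have c2 : ∀ᶠ p in nhds ((0, 0, 0) : ℝ × ℝ × ℝ), zeta p ∈ Ioo (-(μ / 2)) (μ / 2) :=
    continuous_zeta.continuousAt.eventually
      (Ioo_mem_nhds (by rw [zeta_zero]; linarith) (by rw [zeta_zero]; linarith))
  obtain ⟨ε2, hε2, H2⟩ := Metric.eventually_nhds_iff.1 c2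
  set r : ℝ := min (min 1 (ε2 / 4)) (t / 20) with hr
  have hr0 : 0 < r := by positivity
  have hr1 : r ≤ 1 := (min_le_left _ _).trans (min_le_left _ _)
  have hr2 : r ≤ ε2 / 4 := (min_le_left _ _).trans (min_le_right _ _)
  have hr3 : r ≤ t / 20 := min_le_right _ _
  set ε : ℝ := min (r ^ 2 / 2) (μ / 2) with hε
  have hε0 : 0 < ε := by positivity
  have hεa : ε ≤ r ^ 2 / 2 := min_le_left _ _
  have hεb : ε ≤ μ / 2 := min_le_right _ _
  rw [mem_interior]
  refine ⟨Metric.ball 0 ε, ?_, Metric.isOpen_ball, Metric.mem_ball_self hε0⟩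
  intro v hv
  have hv' : ∀ j, |v j| < ε := by
    intro j
    rw [mem_ball_zero_iff] at hv
    exact lt_of_le_of_lt (norm_le_pi_norm v j) hv
  have hv0 := abs_lt.1 (hv' 0)
  have hv1 := abs_lt.1 (hv' 1)
  have hv2 := abs_lt.1 (hv' 2)
  have hrr : r ^ 2 ≤ r := by nlinarith
  have hx2 : v 0 ^ 2 ≤ r ^ 2 / 4 := by
    have h5 : |v 0| ≤ r / 2 := by have := hv' 0; linarith
    have h6 := abs_nonneg (v 0)
    have h7 : v 0 ^ 2 = |v 0| ^ 2 := (sq_abs _).symm
    rw [h7]
    nlinarith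
  have hrad : 0 < r ^ 2 + v 1 - v 0 ^ 2 / 2 := by
    have h5 : 0 < r ^ 2 := by positivity
    nlinarith
  set a : ℝ := Real.sqrt (r ^ 2 + v 1 - v 0 ^ 2 / 2) with ha
  have ha0 : 0 < a := Real.sqrt_pos.2 hrad
  have ha2 : a ^ 2 = r ^ 2 + v 1 - v 0 ^ 2 / 2 := Real.sq_sqrt hrad.le
  have har : a < 2 * r := by
    have h5 : a ^ 2 < (2 * r) ^ 2 := by
      rw [ha2]
      have h6 := sq_nonneg (v 0)
      have h7 : 0 < r ^ 2 := by positivity
      have h8 : (2 * r) ^ 2 = 4 * r ^ 2 := by ring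
      rw [h8]
      linarith [hv1.2]
    exact lt_of_pow_lt_pow_left₀ 2 (by positivity) h5
  have hz := H2 (y := (a, r, v 0)) (by
    simp only [Prod.dist_eq, Real.dist_eq, sub_zero]
    refine max_lt ?_ (max_lt ?_ ?_)
    · rw [abs_of_pos ha0]; linarith
    · rw [abs_of_pos hr0]; linarith
    · have := hv' 0; linarith)
  -- intermediate value theorem
  have hIcc := intermediate_value_Icc' hh1' (hCcont.continuousOn (s := Icc h1 h0))
  obtain ⟨h, hh, hCh⟩ := hIcc (show v 2 - zeta (a, r, v 0) ∈ Icc (C h0) (C h1) from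
    ⟨by linarith [hz.1, hz.2], by linarith [hz.1, hz.2]⟩)
  have hhpos : 0 < h := lt_of_lt_of_le hh1 hh.1
  have r0 := loop hk hhpos M
  have r1 := Reach.step0 hk r0 (s := a) ha0
  have r2 := Reach.step1 hk r1 (s := a + r) (by linarith)
  have r3 := Reach.step0 hk r2 (s := v 0 + r) (by nlinarith)
  rw [flow3 _ a r (v 0) (v 1) ha2] at r3
  have e : (![v 0, v 1, 4 / 7 * (M : ℝ) * h ^ 7 - 2 * Bet M * h ^ 9 + zeta (a, r, v 0)] :
      Fin 3 → ℝ) = v := by
    have e1 : 4 / 7 * (M : ℝ) * h ^ 7 - 2 * Bet M * h ^ 9 + zeta (a, r, v 0) = v 2 := by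
      have : C h = 4 / 7 * (M : ℝ) * h ^ 7 - 2 * Bet M * h ^ 9 := rfl
      rw [← this, hCh]
      ring
    rw [e1]
    ext l; fin_cases l <;> rfl
  rw [e] at r3
  refine r3.mem ?_
  have h5 : 4 * M * h ≤ t / 2 := by
    have h6 : M * h ≤ M * h0 := by
      have := hh.2
      gcongr
    rw [hMh] at h6
    linarith
  nlinarith

/-- the number of switchings needed in time less than `t` grows at least like `t ^ (-1/3)` -/
theorem no_bound {k : ℕ} (hk : 2 ≤ k) (N : ℕ) (t : ℝ) (ht0 : 0 < t)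
    (htN : t * (N + 1) ^ 3 ≤ 1 / (22 * k ^ 2)) :
    (0 : Fin 3 → ℝ) ∉ interior (attainable (fld k) t N) := by
  intro hmem
  have hk1 : (2 : ℝ) ≤ k := by exact_mod_cast hk
  -- all attainable points have nonnegative third coordinate
  have hnn : ∀ v ∈ attainable (fld k) t N, 0 ≤ v 2 := by
    rintro v ⟨m, τ, i, γ, hm, h0, h1, ht, h3, h4, h5, h6⟩
    have hmono := mono_times h1
    set T := τ m with hTdef
    have hT : 0 ≤ T := by rw [hTdef, ← h0]; exact hmono m le_rfl 0 (Nat.zero_le _)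
    have := (lower_bound h0 h1 h4 h5 T (fun j hj => hmono m le_rfl j hj) m le_rfl).2.2.2
    rw [← hTdef, h6] at this
    refine le_trans ?_ this
    rcases Nat.eq_zero_or_pos m with hm0 | hm0
    · subst hm0
      have : T = 0 := by rw [hTdef, h0]
      simp [this]
    · have hsum : ∑ l ∈ Finset.range m, (τ (l + 1) - τ l) = T := by
        rw [Finset.sum_range_sub, h0, sub_zero]
      have hpm := pow_sum_le_card_mul_sum_pow (s := Finset.range m)
        (f := fun l => τ (l + 1) - τ l)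
        (fun l hl => (sub_pos.2 (h1 l (Finset.mem_range.1 hl))).le) 6
      simp only [Finset.card_range, hsum] at hpm
      rw [← Finset.sum_div]
      set S := ∑ l ∈ Finset.range m, (τ (l + 1) - τ l) ^ (6 + 1) with hS
      have hmN : (m : ℝ) ≤ N + 1 := by exact_mod_cast hm
      have hm1 : (1 : ℝ) ≤ m := by exact_mod_cast hm0
      -- `T m³ k² ≤ 1 / 22`
      have h7 : T * m ^ 3 * (22 * k ^ 2) ≤ 1 := by
        have h8 : T * m ^ 3 ≤ t * (N + 1) ^ 3 := by gcongr
        have h9 := h8.trans htN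
        rwa [le_div_iff₀ (by positivity)] at h9
      have h8 : (T * m ^ 3 * k ^ 2) ^ 2 ≤ 1 / 448 := by
        have h9 : T * m ^ 3 * k ^ 2 ≤ 1 / 22 := by linarith
        have h10 : 0 ≤ T * m ^ 3 * k ^ 2 := by positivity
        nlinarith
      -- `k⁴ T⁹ m⁶ ≤ T⁷ / 448 ≤ m⁶ S / 448`
      have h11 : ((k * T ^ 2) ^ 4 * T) * m ^ 6 ≤ (S / 448) * m ^ 6 := by
        have e : ((k * T ^ 2) ^ 4 * T) * (m : ℝ) ^ 6 = T ^ (6 + 1) * (T * m ^ 3 * k ^ 2) ^ 2 := by
          ring
        rw [e]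
        calc T ^ (6 + 1) * (T * m ^ 3 * k ^ 2) ^ 2 ≤ T ^ (6 + 1) * (1 / 448) := by gcongr
          _ ≤ (m ^ 6 * S) * (1 / 448) := by gcongr
          _ = _ := by ring
      have h12 : (k * T ^ 2) ^ 4 * T ≤ S / 448 :=
        le_of_mul_le_mul_right h11 (by positivity)
      linarith
  obtain ⟨ε, hε, hball⟩ := Metric.isOpen_iff.1 isOpen_interior 0 hmem
  have hv : (![0, 0, -(ε / 2)] : Fin 3 → ℝ) ∈ Metric.ball (0 : Fin 3 → ℝ) ε := by
    rw [mem_ball_zero_iff, pi_norm_lt_iff hε]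
    intro j
    fin_cases j
    · simpa using hε
    · simpa using hε
    · simp [abs_of_pos hε]
      linarith
  have := hnn _ (interior_subset (hball hv))
  simp at this
  linarith

lemma cb_injective {k : ℕ} {i j : Fin k} (h : cb i = cb j) : i = j := by
  unfold cb at h
  ext
  split_ifs at h with h1 h2 h2
  · omega
  · exfalso
    have h3 : (0 : ℝ) ≤ (j.val : ℝ) := Nat.cast_nonneg _
    linarith
  · exfalso
    have h3 : (0 : ℝ) ≤ (i.val : ℝ) := Nat.cast_nonneg _
    linarith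
  · have h3 : (i.val : ℝ) = (j.val : ℝ) := by linarith
    exact_mod_cast h3

lemma fld_injective (k : ℕ) : Function.Injective (fld k) := by
  intro i j hij
  apply cb_injective
  have h := congrFun (congrFun hij 0) 0
  simpa [fld] using h

lemma fld_analytic (k : ℕ) (i : Fin k) : AnalyticOnNhd ℝ (fld k i) Set.univ := by
  have : fld k i = fun v j => (![fun _ => cb i, fun v => v 0, fun v => v 0 ^ 6 - v 1 ^ 4] :
      Fin 3 → (Fin 3 → ℝ) → ℝ) j v := by
    ext v j
    fin_cases j <;> simp [fld]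
  rw [this]
  apply AnalyticOnNhd.pi
  have hproj : ∀ j : Fin 3, AnalyticOnNhd ℝ (fun v : Fin 3 → ℝ => v j) Set.univ := fun j =>
    (ContinuousLinearMap.proj (R := ℝ) (φ := fun _ : Fin 3 => ℝ) j).analyticOnNhd _
  intro j
  fin_cases j
  · exact analyticOnNhd_const
  · exact hproj 0
  · exact ((hproj 0).pow 6).sub ((hproj 1).pow 4)

lemma fld_polynomial (k : ℕ) (i : Fin k) (j : Fin 3) :
    ∃ P : MvPolynomial (Fin 3) ℝ, ∀ x, fld k i x j = MvPolynomial.eval x P := by
  fin_cases j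
  · exact ⟨MvPolynomial.C (cb i), fun x => by simp [fld]⟩
  · exact ⟨MvPolynomial.X 0, fun x => by simp [fld]⟩
  · exact ⟨MvPolynomial.X 0 ^ 6 - MvPolynomial.X 1 ^ 4, fun x => by simp [fld]⟩

/-- **Bounded switching fails in dimension three, already for pairs of vector fields.** For every
`k ≥ 2` there are `k` pairwise different polynomial (hence real-analytic) vector fields on `ℝ³`
which are small time locally controllable at the origin, while for every integer `N` there is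
`t > 0` such that the origin is not an interior point of the set attainable in time less than `t`
with at most `N` switchings. More precisely, there is a constant `c > 0` such that this happens
for all `N` and `t` with `t (N + 1)³ ≤ c`: the number of switchings needed in time less than `t`
is larger than `(c / t) ^ (1/3) - 1`. -/
theorem result (k : ℕ) (hk : 2 ≤ k) :
    ∃ f : Fin k → (Fin 3 → ℝ) → (Fin 3 → ℝ),
      Function.Injective f ∧
      (∀ i, AnalyticOnNhd ℝ (f i) Set.univ) ∧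
      (∀ i j, ∃ P : MvPolynomial (Fin 3) ℝ, ∀ x, f i x j = MvPolynomial.eval x P) ∧
      STLC f ∧
      (∀ N : ℕ, ∃ t > 0, (0 : Fin 3 → ℝ) ∉ interior (attainable f t N)) ∧
      ∃ c > 0, ∀ (N : ℕ) (t : ℝ), 0 < t → t * (N + 1) ^ 3 ≤ c →
        (0 : Fin 3 → ℝ) ∉ interior (attainable f t N) := by
  have hk1 : (0 : ℝ) < k := by exact_mod_cast (by omega : 0 < k)
  refine ⟨fld k, fld_injective k, fld_analytic k, fld_polynomial k, stlc hk, ?_,
    1 / (22 * k ^ 2), by positivity, fun N t h1 h2 => no_bound hk N t h1 h2⟩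
  intro N
  refine ⟨1 / (22 * k ^ 2) / (N + 1) ^ 3, by positivity,
    no_bound hk N _ (by positivity) (le_of_eq ?_)⟩
  field_simp

end Pool.Agent.Results.MP_6714ac_an.PairsNoSwitchingBound
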